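import Pool.Agent.H63.AC.Stm

/-!
# Exponentials, constants, sums, products (`S_pm1`)
-/

set_option autoImplicit false

namespace Pool.Agent.H585.AC

open Complex MeasureTheory Filter Topology
open Pool.Agent.H63.AC

lemma norm_exp_I (l t : ℝ) : ‖cexp (I * ((l * t : ℝ) : ℂ))‖ = 1 := by
  rw [mul_comm, Complex.norm_exp_ofReal_mul_I]

lemma cont_exp (l : ℝ) : Continuous (fun t : ℝ => cexp (I * ((l * t : ℝ) : ℂ))) := by
  fun_prop

lemma pm_int {f : ℝ → ℂ} {C : ℝ} (hf : Pm f C) {g : ℝ → ℂ} (hg : Integrable g) :
    Integrable (fun t => g t * f t) :=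
  hg.mul_bdd hf.1.aestronglyMeasurable (Eventually.of_forall hf.2.1)

theorem t_pm1 : S_pm1 := by
  refine ⟨?_, ?_, ?_, ?_⟩
  · intro l
    refine ⟨cont_exp l, fun t => (norm_exp_I l t).le, ?_⟩
    intro g D _ h
    rw [one_mul]
    exact h l
  · intro c
    refine ⟨continuous_const, fun _ => le_rfl, ?_⟩
    intro g D _ h
    have h0 := h 0
    have e : (∫ t : ℝ, g t * cexp (I * ((0 * t : ℝ) : ℂ))) = ∫ t, g t := by
      refine integral_congr_ae (Eventually.of_forall fun t => ?_)
      simp
    rw [e] at h0
    rw [integral_mul_const, norm_mul, mul_comm]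
    exact mul_le_mul_of_nonneg_left h0 (norm_nonneg _)
  · intro f g C D hf hg
    refine ⟨hf.1.add hg.1, fun t => (norm_add_le _ _).trans (add_le_add (hf.2.1 t) (hg.2.1 t)), ?_⟩
    intro w B hw h
    have e : (∫ t, w t * (f t + g t)) = (∫ t, w t * f t) + ∫ t, w t * g t := by
      rw [← integral_add (pm_int hf hw) (pm_int hg hw)]
      refine integral_congr_ae (Eventually.of_forall fun t => ?_)
      simp only []
      ring
    rw [e, add_mul]
    exact (norm_add_le _ _).trans (add_le_add (hf.2.2 w B hw h) (hg.2.2 w B hw h))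
  · intro f g C D hf hg
    have hC : 0 ≤ C := (norm_nonneg _).trans (hf.2.1 0)
    refine ⟨hf.1.mul hg.1, fun t => ?_, ?_⟩
    · rw [norm_mul]
      exact mul_le_mul (hf.2.1 t) (hg.2.1 t) (norm_nonneg _) hC
    · intro w B hw h
      have h1 : ∀ l : ℝ, ‖∫ t, (w t * f t) * cexp (I * ((l * t : ℝ) : ℂ))‖ ≤ C * B := by
        intro l
        have hwl : Integrable (fun t => w t * cexp (I * ((l * t : ℝ) : ℂ))) :=
          hw.mul_bdd (cont_exp l).aestronglyMeasurable
            (Eventually.of_forall fun t => (norm_exp_I l t).le)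
        have h2 : ∀ m : ℝ, ‖∫ t, (w t * cexp (I * ((l * t : ℝ) : ℂ))) *
            cexp (I * ((m * t : ℝ) : ℂ))‖ ≤ B := by
          intro m
          have e : (∫ t, (w t * cexp (I * ((l * t : ℝ) : ℂ))) * cexp (I * ((m * t : ℝ) : ℂ))) =
              ∫ t, w t * cexp (I * (((l + m) * t : ℝ) : ℂ)) := by
            refine integral_congr_ae (Eventually.of_forall fun t => ?_)
            simp only []
            rw [mul_assoc, ← Complex.exp_add]
            congr 2
            push_cast
            ring
          rw [e]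
          exact h (l + m)
        have h3 := hf.2.2 _ B hwl h2
        have e : (∫ t, (w t * f t) * cexp (I * ((l * t : ℝ) : ℂ))) =
            ∫ t, (w t * cexp (I * ((l * t : ℝ) : ℂ))) * f t := by
          refine integral_congr_ae (Eventually.of_forall fun t => ?_)
          simp only []
          ring
        rw [e]
        exact h3
      have h4 := hg.2.2 _ (C * B) (pm_int hf hw) h1
      have e : (∫ t, w t * (f t * g t)) = ∫ t, (w t * f t) * g t := by
        refine integral_congr_ae (Eventually.of_forall fun t => ?_)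
        simp only []
        ring
      rw [e]
      calc _ ≤ D * (C * B) := h4
        _ = C * D * B := by ring

end Pool.Agent.H585.AC
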